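import Pool.Agent.W514.RA.Cor

/-!
# Non-tempered places of several forms on `GL(2)` inside an arbitrary set of places
-/

set_option autoImplicit false

namespace Pool.Agent.Results.MP_08cfa9_nt.ArbitrarySetsOfPlaces

open Filter Topology Pool.Agent.W514.RA

/-- Let `t i v = |a_v(π_i)|^2` for a finite family of cuspidal representations of `GL(2)` over a
number field, `w k` weights on the places for which the Hecke functions of the adjoint square and
the adjoint fourth power of all the `π_i` are orthonormal in the limit. For every `η > 0` and all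
sufficiently late scales `k` the following holds.

1. For EVERY set `S` of places, all `ρ` and all `y ≤ 4` with
`D = ρ (4 - y)^2 - (y^2 - 2 y + 2) ≥ 0`, if `N` is the number of the forms which are non-tempered
on at least the proportion `ρ` of `S`, then
`(1 + N D^2 / ((3 - 2 y)^2 + 1)) · mass S ≤ 1 + η`.
2. In particular, for `ρ ≥ 1 / 10`, `(1 + N (10000 / 306) (ρ - 1 / 10)^2) · mass S ≤ 1 + η`.
3. The set of places at which all the forms in `J` are non-tempered has mass at most
`(1 + η) / (1 + 34 |J|)`. -/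
theorem result {P κ ι : Type*} [DecidableEq ι] [Fintype ι] {w : κ → P → ℝ} {l : Filter κ}
    {t : ι → P → ℝ} (h : RankinSelberg w l t) {η : ℝ} (hη : 0 < η) :
    ∀ᶠ k in l,
      (∀ (S : Set P) (ρ y : ℝ), y ≤ 4 → 0 ≤ ρ * (4 - y) ^ 2 - (y ^ 2 - 2 * y + 2) →
        (1 + ({i | ρ * mass (w k) S ≤ mass (w k) (S ∩ fails t i)}.ncard : ℝ) *
          ((ρ * (4 - y) ^ 2 - (y ^ 2 - 2 * y + 2)) ^ 2 / ((3 - 2 * y) ^ 2 + 1))) *
            mass (w k) S ≤ 1 + η) ∧
      (∀ (S : Set P) (ρ : ℝ), 1 / 10 ≤ ρ →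
        (1 + ({i | ρ * mass (w k) S ≤ mass (w k) (S ∩ fails t i)}.ncard : ℝ) *
          (10000 / 306 * (ρ - 1 / 10) ^ 2)) * mass (w k) S ≤ 1 + η) ∧
      (∀ J : Set ι, (1 + 34 * (J.ncard : ℝ)) * mass (w k) (⋂ i ∈ J, fails t i) ≤ 1 + η) := by
  filter_upwards [general h hη, explicit h hη] with k h1 h2
  exact ⟨h1, h2⟩

end Pool.Agent.Results.MP_08cfa9_nt.ArbitrarySetsOfPlaces
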