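import Pool.Agent.W189.TP.Fin

/-!
# The generic Ramanujan conjecture for `GL(3)` over `ℚ`: many tempered primes

Let `π` be a unitary cuspidal automorphic representation of `GL_3` over `ℚ` (such a `π` is globally
generic), unramified outside the finite set `S`, with Satake parameters `α_{i,p}`, `p ∉ S`. The
component `π_p` is tempered iff `|α_{i,p}| = 1` for `i = 1, 2, 3`. It is known that there are infinitely many
such primes (Ramakrishnan). We show that for every `c < 1/2` the number of the primes `p ≤ x` with `π_p` tempered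
is not `O(x^c)`; more precisely `∑ p^{-c}`, `p` tempered, diverges.

For `GL_n`, `n ≥ 2`, the same holds for the primes at which some power sum
`∑_i α_{i,p}^k`, `k ≥ 1`, has absolute value `< 1`.

The structure `RankinSelberg` lists what is used of `π`. All of it is classical: the unramified components are
unitary; the Rankin-Selberg series converges absolutely for `Re s > 1` (Jacquet, Shalika); and
`L(s, π × π~)` is holomorphic except for a simple pole at `s = 1`, with its functional equation
(Jacquet, Piatetski-Shapiro, Shalika, Moeglin, Waldspurger). The factor `Γ_ℝ(s)` is the contribution of the trivial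
summand of `π_∞ ⊗ π~_∞`.
-/

set_option autoImplicit false

namespace Pool.Agent.Results.MP_08cfa9_nt.TemperedPrimesGL3

open Pool.Agent.W189.TP

/-- **Tempered primes for `GL(3)`.** -/
theorem result {S : Finset Nat.Primes} :
    (∀ α : PS S → Fin 3 → ℂ, RankinSelberg α → ∀ c : ℝ, c < 1 / 2 →
      (¬ Summable fun p : {p : PS S // ∀ i, ‖α p i‖ = 1} => ((p.1.1 : ℕ) : ℝ) ^ (-c)) ∧
      ∀ C X : ℝ, ∃ x : ℝ, X ≤ x ∧
        C * x ^ c < (({p : PS S | ((p.1 : ℕ) : ℝ) ≤ x ∧ ∀ i, ‖α p i‖ = 1}.ncard : ℕ) : ℝ)) ∧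
    ∀ n : ℕ, 2 ≤ n → ∀ α : PS S → Fin n → ℂ, RankinSelberg α → ∀ c : ℝ, c < 1 / 2 →
      ∀ C X : ℝ, ∃ x : ℝ, X ≤ x ∧
        C * x ^ c < (({p : PS S | ((p.1 : ℕ) : ℝ) ≤ x ∧
          ∃ k : ℕ, ‖∑ i, α p i ^ (k + 1)‖ < 1}.ncard : ℕ) : ℝ) :=
  ⟨fun _ h c hc => ⟨tempered_diverge h hc, count_large _ (fun _ hc => tempered_diverge h hc) c hc⟩,
    fun _ hn _ h c hc => count_large _ (fun _ hc => main hn h hc) c hc⟩

end Pool.Agent.Results.MP_08cfa9_nt.TemperedPrimesGL3
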